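import Pool.Agent.H20.LIM.Targets

/-!
# Module NAP: approximation of profiles by nice periodic functions
-/

set_option autoImplicit false

open Complex MeasureTheory Set Filter Topology Metric

namespace Pool.Agent.H71.LIM

open Pool.Agent.H20.LIM Pool.Agent.H23.GLM Pool.Agent.H23.DZ

lemma L1_add3 {R : ℝ} {f g h : ℂ → ℝ} (hf : AEStronglyMeasurable f volume)
    (hg : AEStronglyMeasurable g volume) :
    L1 R (fun z => f z + g z + h z) ≤ L1 R f + L1 R g + L1 R h := by
  unfold L1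
  calc ∫⁻ z in closedBall (0 : ℂ) R, ‖f z + g z + h z‖ₑ
      ≤ ∫⁻ z in closedBall (0 : ℂ) R, (‖f z‖ₑ + ‖g z‖ₑ + ‖h z‖ₑ) := by
        refine lintegral_mono fun z => ?_
        exact (enorm_add_le _ _).trans (add_le_add_left (enorm_add_le _ _) _)
    _ = _ := by
        have h1 : AEMeasurable (fun z => ‖f z‖ₑ) (volume.restrict (closedBall (0 : ℂ) R)) :=
          hf.restrict.enorm
        have h2 : AEMeasurable (fun z => ‖g z‖ₑ) (volume.restrict (closedBall (0 : ℂ) R)) :=
          hg.restrict.enorm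
        have h12 : AEMeasurable (fun z => ‖f z‖ₑ + ‖g z‖ₑ)
            (volume.restrict (closedBall (0 : ℂ) R)) := h1.add h2
        rw [lintegral_add_left' h12, lintegral_add_left' h1]

theorem pf_nap (hVPR : T_VPR) (hDIL : T_DIL) (hREG : T_REG) (hCUT : T_CUT) : T_NAP := by
  intro q u hq hq1 hu R δ hδ
  have hv := hVPR q u hq.le hu
  set v : ℂ → ℝ := fun z => u z + q / 2 * z.re with hvd
  have hδ3 : 0 < δ / 3 := by positivity
  obtain ⟨a, v1, ha, ha2, hv1, hout, h1⟩ := hDIL q v hq.le hv R (δ / 3) hδ3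
  obtain ⟨a', v2, ha', hv2, h2⟩ := hREG q a v1 hq.le hq1 ha ha2 hv1 hout R (δ / 3) hδ3
  obtain ⟨P, W, hP, hW, h3⟩ := hCUT q a' v2 hq ha' hv2 R (δ / 3) hδ3
  refine ⟨P, W, hP, hW, ?_⟩
  obtain ⟨K, hK⟩ := hW.lip
  obtain ⟨K', hK'⟩ := hv2.lip
  have e : (fun z => (W z - q / 2 * z.re) - u z) =
      fun z => (W z - v2 z) + (v2 z - v1 z) + (v1 z - v z) := by
    funext z
    rw [hvd]
    ring
  rw [e]
  have m1 : AEStronglyMeasurable (fun z => W z - v2 z) volume :=
    (hK.continuous.sub hK'.continuous).aestronglyMeasurable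
  have m2 : AEStronglyMeasurable (fun z => v2 z - v1 z) volume :=
    hK'.continuous.aestronglyMeasurable.sub hv1.loc.aestronglyMeasurable
  refine (L1_add3 m1 m2).trans ?_
  refine (add_le_add (add_le_add h3 h2) h1).trans ?_
  rw [← ENNReal.ofReal_add hδ3.le hδ3.le, ← ENNReal.ofReal_add (by positivity) hδ3.le]
  refine ENNReal.ofReal_le_ofReal ?_
  linarith

end Pool.Agent.H71.LIM
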