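import Pool.Agent.H20.LIM.Targets2

/-!
# Module SAD: the average operator is self adjoint
-/

set_option autoImplicit false

open Complex MeasureTheory Set Filter Topology Metric

namespace Pool.Agent.H71.LIM

open Pool.Agent.H20.LIM Pool.Agent.H23.GLM Pool.Agent.H23.DZ

lemma av_eq (r : ℝ) (f : ℂ → ℝ) (z : ℂ) :
    av r f z = (volume.real (ball (0 : ℂ) r))⁻¹ * ∫ w in ball z r, f w := by
  unfold av
  have h : volume.real (ball z r) = volume.real (ball (0 : ℂ) r) := by
    unfold Measure.real
    rw [Complex.volume_ball, Complex.volume_ball]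
  rw [setAverage_eq, smul_eq_mul, h]

theorem pf_sad : T_SAD := by
  intro h φ r hr hloc hφ hsupp
  set V := volume.real (ball (0 : ℂ) r) with hV
  obtain ⟨R, hR⟩ := hsupp.isBounded.subset_closedBall (0 : ℂ)
  have hφ0 : ∀ w : ℂ, w ∉ closedBall (0 : ℂ) R → φ w = 0 := fun w hw =>
    image_eq_zero_of_notMem_tsupport fun h1 => hw (hR h1)
  set K := closedBall (0 : ℂ) (R + r) with hK
  have hφi : Integrable φ := hφ.integrable_of_hasCompactSupport hsupp
  have hhi : Integrable (K.indicator h) :=
    (hloc.integrableOn_isCompact (isCompact_closedBall _ _)).integrable_indicator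
      measurableSet_closedBall
  have hprod : Integrable (fun p : ℂ × ℂ => K.indicator h p.1 * φ p.2)
      ((volume : Measure ℂ).prod (volume : Measure ℂ)) := hhi.mul_prod hφi
  set S : Set (ℂ × ℂ) := {p | dist p.2 p.1 < r} with hS
  have hSm : MeasurableSet S :=
    (isOpen_lt (continuous_snd.dist continuous_fst) continuous_const).measurableSet
  have hF : Integrable (S.indicator fun p : ℂ × ℂ => K.indicator h p.1 * φ p.2)
      ((volume : Measure ℂ).prod (volume : Measure ℂ)) := hprod.indicator hSm
  have hL : ∀ z : ℂ, ∫ w, S.indicator (fun p : ℂ × ℂ => K.indicator h p.1 * φ p.2) (z, w) =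
      h z * ∫ w in ball z r, φ w := by
    intro z
    have e1 : (fun w => S.indicator (fun p : ℂ × ℂ => K.indicator h p.1 * φ p.2) (z, w)) =
        (ball z r).indicator fun w => K.indicator h z * φ w := by
      funext w
      rfl
    rw [e1, integral_indicator measurableSet_ball, integral_const_mul]
    by_cases hz : z ∈ K
    · rw [indicator_of_mem hz]
    · have h0 : ∫ w in ball z r, φ w = 0 := by
        refine setIntegral_eq_zero_of_forall_eq_zero fun w hw => hφ0 w fun hw2 => hz ?_
        rw [mem_closedBall] at hw2 ⊢
        rw [mem_ball] at hw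
        calc dist z 0 ≤ dist z w + dist w 0 := dist_triangle _ _ _
          _ ≤ R + r := by rw [dist_comm z w]; linarith
      rw [h0, mul_zero, mul_zero]
  have hRt : ∀ w : ℂ, ∫ z, S.indicator (fun p : ℂ × ℂ => K.indicator h p.1 * φ p.2) (z, w) =
      (∫ z in ball w r, h z) * φ w := by
    intro w
    have e1 : (fun z => S.indicator (fun p : ℂ × ℂ => K.indicator h p.1 * φ p.2) (z, w)) =
        (ball w r).indicator fun z => K.indicator h z * φ w := by
      funext z
      unfold indicator
      have : (z, w) ∈ S ↔ z ∈ ball w r := by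
        rw [hS, mem_ball, dist_comm z w]
        rfl
      by_cases h1 : (z, w) ∈ S
      · rw [if_pos h1, if_pos (this.1 h1)]
      · rw [if_neg h1, if_neg (fun h2 => h1 (this.2 h2))]
    rw [e1, integral_indicator measurableSet_ball, integral_mul_const]
    by_cases hw : w ∈ closedBall (0 : ℂ) R
    · congr 1
      refine setIntegral_congr_fun measurableSet_ball fun z hz => ?_
      refine indicator_of_mem ?_ _
      rw [hK, mem_closedBall]
      rw [mem_closedBall] at hw
      rw [mem_ball] at hz
      calc dist z 0 ≤ dist z w + dist w 0 := dist_triangle _ _ _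
        _ ≤ R + r := by linarith
    · rw [hφ0 w hw, mul_zero, mul_zero]
  have i1 := hF.integral_prod_left
  have i2 := hF.integral_prod_right
  have i3 := integral_integral_swap
    (f := fun z w => S.indicator (fun p : ℂ × ℂ => K.indicator h p.1 * φ p.2) (z, w)) hF
  simp only [hL] at i1 i3
  simp only [hRt] at i2 i3
  have f1 : (fun z => h z * av r φ z) = fun z => V⁻¹ * (h z * ∫ w in ball z r, φ w) := by
    funext z
    rw [av_eq, ← hV]
    ring
  have f2 : (fun z => av r h z * φ z) = fun z => V⁻¹ * ((∫ w in ball z r, h w) * φ z) := by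
    funext z
    rw [av_eq, ← hV]
    ring
  rw [f1, f2]
  refine ⟨i1.const_mul _, i2.const_mul _, ?_⟩
  rw [integral_const_mul, integral_const_mul, i3]

end Pool.Agent.H71.LIM
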